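import Pool.Agent.Work.MP_c20ce7_dm.Defs

set_option autoImplicit false

/-! Exponentials of locally nilpotent operators. -/

open MvPolynomial

noncomputable section

namespace Pool.DM

variable {L : Type} [AddCommGroup L] [Module ℂ L]

/-- The power series `f` applied to the locally nilpotent operator `T`. -/
theorem ps_indep (T : Module.End ℂ L) (f : PowerSeries ℂ) (u : L) {N M : ℕ} (hN : (T ^ N) u = 0)
    (hM : (T ^ M) u = 0) :
    (Polynomial.aeval T (PowerSeries.trunc N f)) u = (Polynomial.aeval T (PowerSeries.trunc M f)) u := by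
  wlog h : N ≤ M generalizing N M
  · exact (this hM hN (le_of_not_ge h)).symm
  obtain ⟨k, rfl⟩ := Nat.exists_eq_add_of_le h
  have h0 : ∀ j, (T ^ (N + j)) u = 0 := fun j => by
    rw [add_comm, pow_add, Module.End.mul_apply, hN, map_zero]
  clear h hM
  induction k with
  | zero => rfl
  | succ k ih =>
    rw [ih, ← add_assoc, PowerSeries.trunc_succ, map_add, Polynomial.aeval_monomial, LinearMap.add_apply]
    rw [Module.End.mul_apply, h0 k, map_zero, add_zero]

/-- The power series `f` applied to the locally nilpotent operator `T`. -/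
def psAct (T : Module.End ℂ L) (hT : LocNil T) (f : PowerSeries ℂ) : Module.End ℂ L where
  toFun u := (Polynomial.aeval T (PowerSeries.trunc (hT u).choose f)) u
  map_add' u v := by
    obtain ⟨N, hN⟩ := hT u
    obtain ⟨M, hM⟩ := hT v
    have h1 : (T ^ (N + M)) u = 0 := by
      rw [add_comm, pow_add, Module.End.mul_apply, hN, map_zero]
    have h2 : (T ^ (N + M)) v = 0 := by
      rw [pow_add, Module.End.mul_apply, hM, map_zero]
    have h3 : (T ^ (N + M)) (u + v) = 0 := by rw [map_add, h1, h2, add_zero]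
    rw [ps_indep T f u (hT u).choose_spec h1, ps_indep T f v (hT v).choose_spec h2,
      ps_indep T f (u + v) (hT (u + v)).choose_spec h3, map_add]
  map_smul' c u := by
    obtain ⟨N, hN⟩ := hT u
    have h3 : (T ^ N) (c • u) = 0 := by rw [map_smul, hN, smul_zero]
    rw [ps_indep T f u (hT u).choose_spec hN, ps_indep T f (c • u) (hT (c • u)).choose_spec h3, map_smul,
      RingHom.id_apply]

theorem psAct_eq (T : Module.End ℂ L) (hT : LocNil T) (f : PowerSeries ℂ) {u : L} {N : ℕ}
    (hN : (T ^ N) u = 0) : psAct T hT f u = (Polynomial.aeval T (PowerSeries.trunc N f)) u :=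
  ps_indep T f u (hT u).choose_spec hN

theorem aeval_trunc (T : Module.End ℂ L) (p : Polynomial ℂ) {u : L} {N : ℕ} (hN : (T ^ N) u = 0) :
    (Polynomial.aeval T (PowerSeries.trunc N (p : PowerSeries ℂ))) u = (Polynomial.aeval T p) u := by
  have h : (Polynomial.X ^ N) ∣ (p - PowerSeries.trunc N (p : PowerSeries ℂ)) := by
    rw [Polynomial.X_pow_dvd_iff]
    intro d hd
    rw [Polynomial.coeff_sub, PowerSeries.coeff_trunc, if_pos hd, Polynomial.coeff_coe, sub_self]
  obtain ⟨q, hq⟩ := h
  have h1 : (Polynomial.aeval T (p - PowerSeries.trunc N (p : PowerSeries ℂ))) u = 0 := by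
    rw [hq, mul_comm, map_mul, map_pow, Polynomial.aeval_X, Module.End.mul_apply, hN, map_zero]
  rw [map_sub, LinearMap.sub_apply, sub_eq_zero] at h1
  exact h1.symm

theorem psAct_mul (T : Module.End ℂ L) (hT : LocNil T) (f g : PowerSeries ℂ) :
    psAct T hT (f * g) = psAct T hT f * psAct T hT g := by
  ext u
  obtain ⟨N, hN⟩ := hT u
  have h1 : (T ^ N) ((Polynomial.aeval T (PowerSeries.trunc N g)) u) = 0 := by
    have : T ^ N = Polynomial.aeval T (Polynomial.X ^ N : Polynomial ℂ) := by simp
    rw [← Module.End.mul_apply, this, ← map_mul, mul_comm, map_mul, Module.End.mul_apply, ← this, hN,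
      map_zero]
  rw [Module.End.mul_apply, psAct_eq T hT g hN, psAct_eq T hT f h1, psAct_eq T hT (f * g) hN,
    ← Module.End.mul_apply, ← map_mul]
  have := aeval_trunc T (PowerSeries.trunc N f * PowerSeries.trunc N g) hN
  rw [Polynomial.coe_mul, PowerSeries.trunc_trunc_mul_trunc] at this
  exact this

theorem psAct_one (T : Module.End ℂ L) (hT : LocNil T) : psAct T hT 1 = 1 := by
  ext u
  obtain ⟨N, hN⟩ := hT u
  rw [psAct_eq T hT 1 hN]
  have := aeval_trunc T 1 hN
  rw [Polynomial.coe_one] at this
  rw [this, map_one]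

/-- `exp (t T)`. -/
def expT (T : Module.End ℂ L) (hT : LocNil T) (t : ℂ) : Module.End ℂ L :=
  psAct T hT (PowerSeries.rescale t (PowerSeries.exp ℂ))

theorem expT_add (T : Module.End ℂ L) (hT : LocNil T) (s t : ℂ) :
    expT T hT (s + t) = expT T hT s * expT T hT t := by
  rw [expT, ← PowerSeries.exp_mul_exp_eq_exp_add, psAct_mul]
  rfl

theorem expT_zero (T : Module.End ℂ L) (hT : LocNil T) : expT T hT 0 = 1 := by
  rw [expT, PowerSeries.rescale_zero_apply]
  simp only [PowerSeries.constantCoeff_exp, map_one]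
  exact psAct_one T hT

theorem expT_neg_mul (T : Module.End ℂ L) (hT : LocNil T) (t : ℂ) :
    expT T hT (-t) * expT T hT t = 1 := by
  rw [← expT_add, neg_add_cancel, expT_zero]

theorem expT_bij (T : Module.End ℂ L) (hT : LocNil T) (t : ℂ) :
    Function.Bijective (expT T hT t) := by
  have h1 := expT_neg_mul T hT t
  have h2 := expT_neg_mul T hT (-t)
  rw [neg_neg] at h2
  refine ⟨Function.LeftInverse.injective (g := expT T hT (-t)) fun u => ?_,
    Function.RightInverse.surjective (g := expT T hT (-t)) fun u => ?_⟩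
  · exact congrArg (fun f : Module.End ℂ L => f u) h1
  · exact congrArg (fun f : Module.End ℂ L => f u) h2

/-- If `[T, Z] = Z₁` and `[T, Z₁] = 0` then `exp (t T) Z = (Z + t Z₁) exp (t T)`. -/
theorem expT_conj (T : Module.End ℂ L) (hT : LocNil T) (t : ℂ) (Z Z1 : Module.End ℂ L)
    (h1 : T * Z = Z * T + Z1) (h2 : T * Z1 = Z1 * T) :
    expT T hT t * Z = (Z + t • Z1) * expT T hT t := by
  have hk : ∀ k : ℕ, T ^ (k + 1) * Z = Z * T ^ (k + 1) + ((k : ℂ) + 1) • (Z1 * T ^ k) := by
    intro k
    induction k with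
    | zero => simp [h1]
    | succ k ih =>
      have hc : T * (Z1 * T ^ k) = Z1 * T ^ (k + 1) := by
        rw [← mul_assoc, h2, mul_assoc, pow_succ']
      rw [pow_succ' T (k + 1), mul_assoc, ih, mul_add, ← mul_assoc, h1, mul_smul_comm, hc, add_mul,
        mul_assoc, ← pow_succ']
      push_cast
      module
  ext u
  obtain ⟨N, hN⟩ := hT u
  obtain ⟨M, hM⟩ := hT (Z u)
  have e1 : (T ^ (N + M)) u = 0 := by rw [add_comm, pow_add, Module.End.mul_apply, hN, map_zero]
  have e2 : (T ^ (N + M + 1)) u = 0 := by rw [pow_succ', Module.End.mul_apply, e1, map_zero]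
  have e3 : (T ^ (N + M + 1)) (Z u) = 0 := by
    rw [pow_succ', pow_add, Module.End.mul_apply, Module.End.mul_apply, hM, map_zero, map_zero]
  have hs : ∀ (n : ℕ) (v : L), (Polynomial.aeval T (PowerSeries.trunc n
      (PowerSeries.rescale t (PowerSeries.exp ℂ)))) v =
      ∑ k ∈ Finset.range n, (t ^ k * (k.factorial : ℂ)⁻¹) • (T ^ k) v := by
    intro n v
    induction n with
    | zero => simp
    | succ n ih =>
      rw [PowerSeries.trunc_succ, map_add, LinearMap.add_apply, ih, Finset.sum_range_succ,
        Polynomial.aeval_monomial, Module.End.mul_apply, Module.algebraMap_end_apply,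
        PowerSeries.coeff_rescale, PowerSeries.coeff_exp]
      simp
  have f1 : expT T hT t u = _ := (psAct_eq T hT _ e2).trans (hs _ _)
  have f2 : expT T hT t u = _ := (psAct_eq T hT _ e1).trans (hs _ _)
  have f3 : expT T hT t (Z u) = _ := (psAct_eq T hT _ e3).trans (hs _ _)
  have f4 : Z (expT T hT t u) + t • Z1 (expT T hT t u) = expT T hT t (Z u) := by
    rw [f3]
    nth_rewrite 1 [f1]
    rw [f2, map_sum, map_sum, Finset.smul_sum, Finset.sum_range_succ' _ (N + M),
      Finset.sum_range_succ' _ (N + M), add_right_comm, ← Finset.sum_add_distrib]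
    congr 1
    · refine Finset.sum_congr rfl fun k _ => ?_
      have hk' := congrArg (fun f : Module.End ℂ L => f u) (hk k)
      simp only [Module.End.mul_apply, LinearMap.add_apply, LinearMap.smul_apply] at hk'
      rw [hk', map_smul, map_smul, smul_add, smul_smul, smul_smul]
      congr 2
      rw [Nat.factorial_succ, Nat.cast_mul, mul_inv, pow_succ]
      have : ((k + 1 : ℕ) : ℂ) ≠ 0 := by exact_mod_cast Nat.succ_ne_zero k
      push_cast at this ⊢
      field_simp
    · simp
  exact f4.symm

end Pool.DM
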