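import Pool.Agent.Work.MP_c20ce7_dm.Defs
import Pool.Agent.Work.MP_c20ce7_dm90.T3

set_option autoImplicit false
set_option linter.unusedSectionVars false

/-! The characteristic variety and linear symplectic changes of coordinates. -/

open MvPolynomial

noncomputable section

namespace Pool.DM

variable {σ : Type} [Fintype σ] [DecidableEq σ] {L : Type} [AddCommGroup L] [Module ℂ L]

/-- The linear form `∑ j, A i j x_j`. -/
def lf (A : Matrix σ σ ℂ) (i : σ) : MvPolynomial σ ℂ := ∑ j, C (A i j) * X j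

/-- Substitution of linear forms: `f ↦ f ∘ A`. -/
def lin (A : Matrix σ σ ℂ) : MvPolynomial σ ℂ →ₐ[ℂ] MvPolynomial σ ℂ := aeval (lf A)

theorem eval_lin (A : Matrix σ σ ℂ) (x : σ → ℂ) (f : MvPolynomial σ ℂ) :
    eval x (lin A f) = eval (A.mulVec x) f := by
  have h : (eval x).comp (lin A).toRingHom = eval (A.mulVec x) := by
    apply MvPolynomial.ringHom_ext
    · intro r
      simp [lin]
    · intro i
      simp [lin, lf, Matrix.mulVec, dotProduct]
  exact congrArg (fun g => g f) h

/-- Substitution of linear forms in the two groups of variables. -/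
def lin2 (A B : Matrix σ σ ℂ) : MvPolynomial (σ ⊕ σ) ℂ →ₐ[ℂ] MvPolynomial (σ ⊕ σ) ℂ :=
  aeval (Sum.elim (fun i => rename Sum.inl (lf A i)) (fun i => rename Sum.inr (lf B i)))

theorem eval_lin2 (A B : Matrix σ σ ℂ) (x ξ : σ → ℂ) (P : MvPolynomial (σ ⊕ σ) ℂ) :
    eval (Sum.elim x ξ) (lin2 A B P) = eval (Sum.elim (A.mulVec x) (B.mulVec ξ)) P := by
  have h : (eval (Sum.elim x ξ)).comp (lin2 A B).toRingHom =
      eval (Sum.elim (A.mulVec x) (B.mulVec ξ)) := by
    apply MvPolynomial.ringHom_ext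
    · intro r
      simp [lin2]
    · intro i
      rcases i with i | i
      · simp [lin2, lf, Matrix.mulVec, dotProduct]
      · simp [lin2, lf, Matrix.mulVec, dotProduct]
  exact congrArg (fun g => g P) h

theorem lin2_mul (A B : Matrix σ σ ℂ) (f g : MvPolynomial σ ℂ) :
    lin2 A B (rename Sum.inl f * rename Sum.inr g) =
      rename Sum.inl (lin A f) * rename Sum.inr (lin B g) := by
  have h1 : (lin2 A B).comp (rename Sum.inl) = (rename Sum.inl).comp (lin A) := by
    apply MvPolynomial.algHom_ext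
    intro i
    simp [lin2, lin]
  have h2 : (lin2 A B).comp (rename Sum.inr) = (rename Sum.inr).comp (lin B) := by
    apply MvPolynomial.algHom_ext
    intro i
    simp [lin2, lin]
  rw [map_mul]
  exact congrArg₂ (· * ·) (congrArg (fun g => g f) h1) (congrArg (fun h => h g) h2)

theorem hom_form (A B : Matrix σ σ ℂ) (i : σ ⊕ σ) :
    IsWeightedHomogeneous (wt σ)
      ((Sum.elim (fun i => rename Sum.inl (lf A i)) (fun i => rename Sum.inr (lf B i)) :
        σ ⊕ σ → MvPolynomial (σ ⊕ σ) ℂ) i) (wt σ i) := by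
  rcases i with i | i
  · simp only [Sum.elim_inl, lf, map_sum, map_mul, rename_C, rename_X]
    refine IsWeightedHomogeneous.sum _ _ _ fun j _ => ?_
    exact (isWeightedHomogeneous_X ℂ (wt σ) (Sum.inl j)).C_mul _
  · simp only [Sum.elim_inr, lf, map_sum, map_mul, rename_C, rename_X]
    refine IsWeightedHomogeneous.sum _ _ _ fun j _ => ?_
    exact (isWeightedHomogeneous_X ℂ (wt σ) (Sum.inr j)).C_mul _

theorem whc_lin2 (A B : Matrix σ σ ℂ) (m : ℕ) (P : MvPolynomial (σ ⊕ σ) ℂ) :
    weightedHomogeneousComponent (wt σ) m (lin2 A B P) =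
      lin2 A B (weightedHomogeneousComponent (wt σ) m P) := by
  induction P using MvPolynomial.induction_on' with
  | add p q hp hq => rw [map_add, map_add, map_add, map_add, hp, hq]
  | monomial d c =>
    have h1 : IsWeightedHomogeneous (wt σ) (lin2 A B (monomial d c)) (Finsupp.weight (wt σ) d) := by
      rw [lin2, aeval_monomial, MvPolynomial.algebraMap_eq]
      refine IsWeightedHomogeneous.C_mul ?_ c
      rw [Finsupp.weight_apply]
      exact IsWeightedHomogeneous.prod _ _ _ fun i _ => (hom_form A B i).pow (d i)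
    have h2 : IsWeightedHomogeneous (wt σ) (monomial d c) (Finsupp.weight (wt σ) d) :=
      isWeightedHomogeneous_monomial _ _ _ rfl
    by_cases h : Finsupp.weight (wt σ) d = m
    · subst h
      rw [h1.weightedHomogeneousComponent_same, h2.weightedHomogeneousComponent_same]
    · rw [h1.weightedHomogeneousComponent_ne m (Ne.symm h), h2.weightedHomogeneousComponent_ne m (Ne.symm h),
        map_zero]

theorem wtd_le {τ : Type} (w : τ → ℕ) (p : MvPolynomial τ ℂ) (m : ℕ)
    (h : ∀ k, m < k → weightedHomogeneousComponent w k p = 0) : weightedTotalDegree w p ≤ m := by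
  refine Finset.sup_le fun s hs => ?_
  by_contra hc
  have h1 := h _ (not_le.1 hc)
  have h2 := congrArg (coeff s) h1
  rw [coeff_weightedHomogeneousComponent, if_pos rfl, coeff_zero] at h2
  exact (mem_support_iff.1 hs) h2

theorem wtd_lin2 (A B : Matrix σ σ ℂ) (m : ℕ) (P : MvPolynomial (σ ⊕ σ) ℂ)
    (h : weightedTotalDegree (wt σ) P ≤ m) : weightedTotalDegree (wt σ) (lin2 A B P) ≤ m := by
  refine wtd_le _ _ _ fun k hk => ?_
  rw [whc_lin2, weightedHomogeneousComponent_eq_zero k P (lt_of_le_of_lt h hk), map_zero]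

theorem conj_x (W : WMod σ L) (E : Module.End ℂ L) (A : Matrix σ σ ℂ)
    (hA : ∀ i, E * W.x (X i) = W.x (lf A i) * E) (f : MvPolynomial σ ℂ) :
    E * W.x f = W.x (lin A f) * E := by
  induction f using MvPolynomial.induction_on with
  | C a => simp [W.x_C, lin]
  | add p q hp hq => simp only [map_add, mul_add, add_mul, hp, hq]
  | mul_X p i hp =>
    rw [map_mul, ← mul_assoc, hp, mul_assoc, hA, ← mul_assoc, ← map_mul, map_mul]
    simp [lin]

theorem conj_d (W : WMod σ L) (E : Module.End ℂ L) (A : Matrix σ σ ℂ)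
    (hA : ∀ i, E * W.d (X i) = W.d (lf A i) * E) (f : MvPolynomial σ ℂ) :
    E * W.d f = W.d (lin A f) * E := by
  induction f using MvPolynomial.induction_on with
  | C a => simp [W.d_C, lin]
  | add p q hp hq => simp only [map_add, mul_add, add_mul, hp, hq]
  | mul_X p i hp =>
    rw [map_mul, ← mul_assoc, hp, mul_assoc, hA, ← mul_assoc, ← map_mul, map_mul]
    simp [lin]

theorem conj_nf (W : WMod σ L) (E : Module.End ℂ L) (A B : Matrix σ σ ℂ)
    (hA : ∀ i, E * W.x (X i) = W.x (lf A i) * E) (hB : ∀ i, E * W.d (X i) = W.d (lf B i) * E)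
    (P : MvPolynomial (σ ⊕ σ) ℂ) : E * W.nf P = W.nf (lin2 A B P) * E := by
  refine sum_ind (fun P => E * W.nf P = W.nf (lin2 A B P) * E) ?_ ?_ P
  · intro f g
    rw [W.nf_mul, lin2_mul, W.nf_mul, ← mul_assoc, conj_x W E A hA, mul_assoc, conj_d W E B hB, mul_assoc]
  · intro p q hp hq
    simp only [map_add, mul_add, add_mul, hp, hq]

/-- `E` injective, `E x_i = (A x)_i E`, `E d_i = (B d)_i E`: the characteristic variety is stable under
`(x, ξ) ↦ (A x, B ξ)`. -/
theorem WMod.InCh.conj {W : WMod σ L} {x ξ : σ → ℂ} (h : W.InCh x ξ) (E : Module.End ℂ L)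
    (hE : Function.Injective E) (A B : Matrix σ σ ℂ)
    (hA : ∀ i, E * W.x (X i) = W.x (lf A i) * E) (hB : ∀ i, E * W.d (X i) = W.d (lf B i) * E) :
    W.InCh (A.mulVec x) (B.mulVec ξ) := by
  intro u hu m P hP hPu
  rw [← eval_lin2, ← whc_lin2]
  refine h (E u) (fun h0 => hu (hE (by rw [h0, map_zero]))) m _ (wtd_lin2 A B m P hP) ?_
  rw [← Module.End.mul_apply, ← conj_nf W E A B hA hB, Module.End.mul_apply, hPu, map_zero]

theorem LocNil.conj {W : WMod σ L} {f : MvPolynomial σ ℂ} (h : LocNil (W.x f)) (E : Module.End ℂ L)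
    (hE : Function.Surjective E) (A : Matrix σ σ ℂ)
    (hA : ∀ i, E * W.x (X i) = W.x (lf A i) * E) : LocNil (W.x (lin A f)) := by
  intro u
  obtain ⟨v, rfl⟩ := hE u
  obtain ⟨k, hk⟩ := h v
  refine ⟨k, ?_⟩
  rw [← map_pow, ← Module.End.mul_apply, ← map_pow, ← conj_x W E A hA, Module.End.mul_apply, map_pow, hk,
    map_zero]

/-- A function which is locally nilpotent on `L` vanishes at the points of the characteristic variety. -/
theorem WMod.InCh.eval_eq_zero [Nontrivial L] {W : WMod σ L} {x ξ : σ → ℂ} (h : W.InCh x ξ)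
    {f : MvPolynomial σ ℂ} (hf : LocNil (W.x f)) : eval x f = 0 := by
  obtain ⟨u, hu⟩ := exists_ne (0 : L)
  obtain ⟨k, hk⟩ := hf u
  have hom : IsWeightedHomogeneous (wt σ) (rename Sum.inl (f ^ k) : MvPolynomial (σ ⊕ σ) ℂ) 0 := by
    intro d hd
    obtain ⟨d', hd', -⟩ := coeff_rename_ne_zero _ _ _ hd
    subst hd'
    rw [Finsupp.weight_apply, Finsupp.sum_mapDomain_index (by simp) (by intros; simp [add_mul])]
    simp [wt]
  have h1 := h u hu 0 (rename Sum.inl (f ^ k)) (wtd_le _ _ _ fun m hm =>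
    hom.weightedHomogeneousComponent_ne m (by omega)) (by rw [W.nf_x, map_pow, hk])
  rw [hom.weightedHomogeneousComponent_same, eval_rename, Sum.elim_comp_inl, map_pow] at h1
  by_contra ha
  exact pow_ne_zero k ha h1

end Pool.DM
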