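import Pool.Agent.Work.MP_c20ce7_dm8.A1
import Pool.Agent.Work.MP_c20ce7_dm8.A2

set_option autoImplicit false
set_option linter.unusedSectionVars false

/-! Commutators of the vector fields with the coordinates; the action of pairs of matrices on the points. -/

open MvPolynomial

noncomputable section

namespace Pool.DM

section

variable {ι : Type} [Fintype ι] [DecidableEq ι] {R : Type} [Add R] [One R] {e : ι → R}
variable {L : Type} [AddCommGroup L] [Module ℂ L]

theorem sum_co8 {M : Type} [AddCommMonoid M] (F : ι → ι → M) (hF : ∀ r s, e r ≠ e s + 1 → F r s = 0) :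
    ∑ d : Co e, F d.1.1 d.1.2 = ∑ r, ∑ s, F r s := by
  classical
  rw [← Fintype.sum_prod_type']
  have h := Finset.sum_subtype (F := inferInstanceAs (Fintype (Co e)))
    (Finset.univ.filter fun p : ι × ι => e p.1 = e p.2 + 1)
    (p := fun p : ι × ι => e p.1 = e p.2 + 1) (by simp) (fun p => F p.1 p.2)
  refine h.symm.trans ?_
  rw [Finset.sum_filter]
  refine Finset.sum_congr rfl fun p _ => ?_
  by_cases hp : e p.1 = e p.2 + 1
  · rw [if_pos hp]
  · rw [if_neg hp, hF _ _ hp]

theorem WMod.xo_zero8 (W : WMod (Co e) L) {a b : ι} (h : e a ≠ e b + 1) : W.xo a b = 0 := by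
  rw [WMod.xo, dif_neg h]

theorem WMod.dO_zero8 (W : WMod (Co e) L) {a b : ι} (h : e a ≠ e b + 1) : W.dO a b = 0 := by
  rw [WMod.dO, dif_neg h]

theorem WMod.xo_co8 (W : WMod (Co e) L) (c : Co e) : W.xo c.1.1 c.1.2 = W.x (X c) := by
  rw [WMod.xo, dif_pos c.2]

theorem WMod.dO_co8 (W : WMod (Co e) L) (c : Co e) : W.dO c.1.1 c.1.2 = W.d (X c) := by
  rw [WMod.dO, dif_pos c.2]

theorem WMod.xo_comm (W : WMod (Co e) L) (a b p q : ι) : W.xo a b * W.xo p q = W.xo p q * W.xo a b := by
  by_cases h1 : e a = e b + 1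
  · by_cases h2 : e p = e q + 1
    · rw [WMod.xo, WMod.xo, dif_pos h1, dif_pos h2, ← map_mul, ← map_mul, mul_comm]
    · rw [W.xo_zero8 h2, mul_zero, zero_mul]
  · rw [W.xo_zero8 h1, mul_zero, zero_mul]

theorem WMod.dO_comm8 (W : WMod (Co e) L) (a b p q : ι) : W.dO a b * W.dO p q = W.dO p q * W.dO a b := by
  by_cases h1 : e a = e b + 1
  · by_cases h2 : e p = e q + 1
    · rw [WMod.dO, WMod.dO, dif_pos h1, dif_pos h2, ← map_mul, ← map_mul, mul_comm]
    · rw [W.dO_zero8 h2, mul_zero, zero_mul]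
  · rw [W.dO_zero8 h1, mul_zero, zero_mul]

open Classical in
theorem WMod.dO_xo (W : WMod (Co e) L) (a b p q : ι) :
    W.dO a b * W.xo p q = W.xo p q * W.dO a b + if e p = e q + 1 ∧ a = p ∧ b = q then 1 else 0 := by
  by_cases h1 : e a = e b + 1
  · by_cases h2 : e p = e q + 1
    · have h := W.comm ⟨(a, b), h1⟩ ⟨(p, q), h2⟩
      rw [sub_eq_iff_eq_add'] at h
      rw [WMod.xo, WMod.dO, dif_pos h1, dif_pos h2, h]
      congr 1
      by_cases h3 : a = p ∧ b = q
      · obtain ⟨rfl, rfl⟩ := h3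
        simp [h1]
      · rw [if_neg, if_neg]
        · exact fun h => h3 h.2
        · intro h
          have := congrArg Subtype.val h
          exact h3 (Prod.mk.injEq _ _ _ _ ▸ this)
    · rw [W.xo_zero8 h2, if_neg (fun h => h2 h.1), mul_zero, zero_mul, add_zero]
  · rw [W.dO_zero8 h1, if_neg (fun h => h1 (by rw [h.2.1, h.2.2]; exact h.1)), mul_zero, zero_mul, add_zero]

theorem WMod.G_xo8 (W : WMod (Co e) L) {a b : ι} (hab : e a = e b) (p q : ι) :
    W.G a b * W.xo p q = W.xo p q * W.G a b +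
      ((if a = p then W.xo b q else 0) - (if b = q then W.xo p a else 0)) := by
  classical
  have h1 : ∀ c, W.xo b c * W.dO a c * W.xo p q = W.xo p q * (W.xo b c * W.dO a c) +
      (if e p = e q + 1 ∧ a = p ∧ c = q then W.xo b c else 0) := by
    intro c
    rw [mul_assoc, W.dO_xo, mul_add, ← mul_assoc, W.xo_comm b c p q, mul_assoc, mul_ite, mul_one, mul_zero]
  have h2 : ∀ c, W.xo c a * W.dO c b * W.xo p q = W.xo p q * (W.xo c a * W.dO c b) +
      (if e p = e q + 1 ∧ c = p ∧ b = q then W.xo c a else 0) := by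
    intro c
    rw [mul_assoc, W.dO_xo, mul_add, ← mul_assoc, W.xo_comm c a p q, mul_assoc, mul_ite, mul_one, mul_zero]
  rw [WMod.G, sub_mul, Finset.sum_mul, Finset.sum_mul, mul_sub, Finset.mul_sum, Finset.mul_sum,
    Finset.sum_congr rfl fun c _ => h1 c, Finset.sum_congr rfl fun c _ => h2 c, Finset.sum_add_distrib,
    Finset.sum_add_distrib]
  have h3 : (∑ c, if e p = e q + 1 ∧ a = p ∧ c = q then W.xo b c else 0) =
      if a = p then W.xo b q else 0 := by
    rw [Finset.sum_eq_single q]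
    · by_cases h : a = p
      · subst h
        by_cases h4 : e a = e q + 1
        · simp [h4]
        · rw [if_pos rfl, W.xo_zero8 (a := b) (b := q) (by rw [← hab]; exact h4)]
          simp
      · simp [h]
    · intro c _ hc
      simp [hc]
    · simp
  have h4 : (∑ c, if e p = e q + 1 ∧ c = p ∧ b = q then W.xo c a else 0) =
      if b = q then W.xo p a else 0 := by
    rw [Finset.sum_eq_single p]
    · by_cases h : b = q
      · subst h
        by_cases h4 : e p = e b + 1
        · simp [h4]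
        · rw [if_pos rfl, W.xo_zero8 (a := p) (b := a) (by rw [hab]; exact h4)]
          simp
      · simp [h]
    · intro c _ hc
      simp [hc]
    · simp
  rw [h3, h4]
  abel

theorem WMod.G_dO8 (W : WMod (Co e) L) {a b : ι} (hab : e a = e b) (p q : ι) :
    W.G a b * W.dO p q = W.dO p q * W.G a b +
      ((if a = q then W.dO p b else 0) - (if b = p then W.dO a q else 0)) := by
  classical
  have hx : ∀ r s, W.xo r s * W.dO p q = W.dO p q * W.xo r s -
      (if e r = e s + 1 ∧ p = r ∧ q = s then 1 else 0) := by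
    intro r s
    rw [W.dO_xo, add_sub_cancel_right]
  have h1 : ∀ c, W.xo b c * W.dO a c * W.dO p q = W.dO p q * (W.xo b c * W.dO a c) -
      (if e b = e c + 1 ∧ p = b ∧ q = c then W.dO a c else 0) := by
    intro c
    rw [mul_assoc, W.dO_comm8 a c p q, ← mul_assoc, hx, sub_mul, mul_assoc, ite_mul, one_mul, zero_mul]
  have h2 : ∀ c, W.xo c a * W.dO c b * W.dO p q = W.dO p q * (W.xo c a * W.dO c b) -
      (if e c = e a + 1 ∧ p = c ∧ q = a then W.dO c b else 0) := by
    intro c
    rw [mul_assoc, W.dO_comm8 c b p q, ← mul_assoc, hx, sub_mul, mul_assoc, ite_mul, one_mul, zero_mul]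
  rw [WMod.G, sub_mul, Finset.sum_mul, Finset.sum_mul, mul_sub, Finset.mul_sum, Finset.mul_sum,
    Finset.sum_congr rfl fun c _ => h1 c, Finset.sum_congr rfl fun c _ => h2 c, Finset.sum_sub_distrib,
    Finset.sum_sub_distrib]
  have h3 : (∑ c, if e b = e c + 1 ∧ p = b ∧ q = c then W.dO a c else 0) =
      if b = p then W.dO a q else 0 := by
    rw [Finset.sum_eq_single q]
    · by_cases h : b = p
      · subst h
        by_cases h4 : e b = e q + 1
        · simp [h4]
        · rw [if_pos rfl, W.dO_zero8 (a := a) (b := q) (by rw [hab]; exact h4)]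
          simp
      · have : ¬ p = b := fun h' => h h'.symm
        simp [h, this]
    · intro c _ hc
      simp [Ne.symm hc]
    · simp
  have h4 : (∑ c, if e c = e a + 1 ∧ p = c ∧ q = a then W.dO c b else 0) =
      if a = q then W.dO p b else 0 := by
    rw [Finset.sum_eq_single p]
    · by_cases h : a = q
      · subst h
        by_cases h4 : e p = e a + 1
        · simp [h4]
        · rw [if_pos rfl, W.dO_zero8 (a := p) (b := b) (by rw [← hab]; exact h4)]
          simp
      · have : ¬ q = a := fun h' => h h'.symm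
        simp [h, this]
    · intro c _ hc
      simp [Ne.symm hc]
    · simp
  rw [h3, h4]
  abel

/-- Matrices of degree `0`. -/
def Gr (e : ι → R) (g : Matrix ι ι ℂ) : Prop := ∀ a b, g a b ≠ 0 → e a = e b

/-- The matrix of the linear map `x ↦ g x g'`. -/
def actA (e : ι → R) (g g' : Matrix ι ι ℂ) : Matrix (Co e) (Co e) ℂ :=
  fun c d => g c.1.1 d.1.1 * g' d.1.2 c.1.2

theorem Gr.zero {g : Matrix ι ι ℂ} (h : Gr e g) {a b : ι} (hab : e a ≠ e b) : g a b = 0 := by
  by_contra h0
  exact hab (h a b h0)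

theorem Gr.mul {g h : Matrix ι ι ℂ} (hg : Gr e g) (hh : Gr e h) : Gr e (g * h) := by
  intro a b hab
  rw [Matrix.mul_apply] at hab
  obtain ⟨c, -, hc⟩ := Finset.exists_ne_zero_of_sum_ne_zero hab
  rw [hg a c (left_ne_zero_of_mul hc), hh c b (right_ne_zero_of_mul hc)]

theorem Gr.one : Gr e (1 : Matrix ι ι ℂ) := by
  intro a b hab
  by_contra h
  exact hab (Matrix.one_apply_ne (fun h' => h (by rw [h'])))

theorem Gr.transpose {g : Matrix ι ι ℂ} (hg : Gr e g) : Gr e g.transpose :=
  fun a b hab => (hg b a hab).symm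

/-- The inverse of a matrix of degree `0` has degree `0`. -/
theorem Gr.inv {g g' : Matrix ι ι ℂ} (hg : Gr e g) (h : g * g' = 1) : Gr e g' := by
  classical
  have h' : g' * g = 1 := mul_eq_one_comm.1 h
  intro a b hab
  set D : Matrix ι ι ℂ := Matrix.diagonal fun c => if e c = e b then 1 else 0 with hD
  have h1 : D * g = g * D := by
    ext p q
    rw [hD, Matrix.diagonal_mul, Matrix.mul_diagonal]
    by_cases hpq : e p = e q
    · rw [hpq, mul_comm]
    · rw [hg.zero hpq, mul_zero, zero_mul]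
  have h2 : g' * D = D * g' := by
    calc g' * D = g' * D * (g * g') := by rw [h, mul_one]
      _ = g' * (D * g) * g' := by simp only [mul_assoc]
      _ = (g' * g) * D * g' := by rw [h1]; simp only [mul_assoc]
      _ = D * g' := by rw [h', one_mul]
  have h3 := congrFun (congrFun h2 a) b
  rw [hD, Matrix.mul_diagonal, Matrix.diagonal_mul, if_pos rfl, mul_one] at h3
  by_contra hne
  rw [if_neg hne, zero_mul] at h3
  exact hab h3

theorem mat_co8 (x : Co e → ℂ) (c : Co e) : mat e x c.1.1 c.1.2 = x c := by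
  rw [mat, dif_pos c.2]

theorem mat_zero (x : Co e → ℂ) {a b : ι} (h : e a ≠ e b + 1) : mat e x a b = 0 := by
  rw [mat, dif_neg h]

theorem mat_inj {x y : Co e → ℂ} (h : mat e x = mat e y) : x = y := by
  ext c
  rw [← mat_co8 x c, h, mat_co8]

/-- The point with a given matrix of degree `1`. -/
theorem exists_mat (M : Matrix ι ι ℂ) (hM : ∀ a b, M a b ≠ 0 → e a = e b + 1) :
    mat e (fun c => M c.1.1 c.1.2) = M := by
  ext a b
  by_cases h : e a = e b + 1
  · rw [mat, dif_pos h]
  · rw [mat_zero _ h]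
    by_contra h0
    exact h (hM a b (Ne.symm h0))

theorem deg_mat (x : Co e → ℂ) {a b : ι} (h : mat e x a b ≠ 0) : e a = e b + 1 := by
  by_contra h0
  exact h (mat_zero x h0)

theorem deg_mul {g g' M : Matrix ι ι ℂ} (hg : Gr e g) (hg' : Gr e g')
    (hM : ∀ a b, M a b ≠ 0 → e a = e b + 1) (a b : ι) (h : (g * M * g') a b ≠ 0) : e a = e b + 1 := by
  rw [Matrix.mul_apply] at h
  obtain ⟨c, -, hc⟩ := Finset.exists_ne_zero_of_sum_ne_zero h
  have h1 := left_ne_zero_of_mul hc
  rw [Matrix.mul_apply] at h1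
  obtain ⟨d, -, hd⟩ := Finset.exists_ne_zero_of_sum_ne_zero h1
  rw [hg a d (left_ne_zero_of_mul hd), hM d c (right_ne_zero_of_mul hd), hg' c b (right_ne_zero_of_mul hc)]

theorem mat_act {g g' : Matrix ι ι ℂ} (hg : Gr e g) (hg' : Gr e g') (x : Co e → ℂ) :
    mat e ((actA e g g').mulVec x) = g * mat e x * g' := by
  have h : (actA e g g').mulVec x = fun c => (g * mat e x * g') c.1.1 c.1.2 := by
    ext c
    rw [Matrix.mulVec, dotProduct]
    have := sum_co8 (e := e) (fun r s => g c.1.1 r * g' s c.1.2 * mat e x r s)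
      (fun r s hrs => by rw [mat_zero x hrs, mul_zero])
    simp only [mat_co8] at this
    simp only [actA]
    rw [this, Matrix.mul_apply, Finset.sum_comm]
    refine Finset.sum_congr rfl fun s _ => ?_
    rw [Matrix.mul_apply, Finset.sum_mul]
    exact Finset.sum_congr rfl fun r _ => by ring
  rw [h]
  exact exists_mat _ (deg_mul hg hg' fun a b => deg_mat x)

theorem WMod.x_act (W : WMod (Co e) L) (g g' : Matrix ι ι ℂ) (c : Co e) :
    W.x (lf (actA e g g') c) = ∑ r, ∑ s, (g c.1.1 r * g' s c.1.2) • W.xo r s := by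
  rw [← sum_co8 (e := e) (fun r s => (g c.1.1 r * g' s c.1.2) • W.xo r s)
    (fun r s hrs => by rw [W.xo_zero8 hrs, smul_zero]), lf, map_sum]
  refine Finset.sum_congr rfl fun d _ => ?_
  rw [map_mul, W.x_C, W.xo_co8, actA, smul_mul_assoc, one_mul]

theorem WMod.d_act (W : WMod (Co e) L) (g g' : Matrix ι ι ℂ) (c : Co e) :
    W.d (lf (actA e g g') c) = ∑ r, ∑ s, (g c.1.1 r * g' s c.1.2) • W.dO r s := by
  rw [← sum_co8 (e := e) (fun r s => (g c.1.1 r * g' s c.1.2) • W.dO r s)
    (fun r s hrs => by rw [W.dO_zero8 hrs, smul_zero]), lf, map_sum]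
  refine Finset.sum_congr rfl fun d _ => ?_
  rw [map_mul, W.d_C, W.dO_co8, actA, smul_mul_assoc, one_mul]

theorem actA_mul {g1 g1' g2 g2' : Matrix ι ι ℂ} (h2 : Gr e g2) (h2' : Gr e g2') :
    actA e (g2 * g1) (g1' * g2') = actA e g2 g2' * actA e g1 g1' := by
  ext c f
  rw [Matrix.mul_apply]
  have := sum_co8 (e := e) (fun r s => (g2 c.1.1 r * g2' s c.1.2) * (g1 r f.1.1 * g1' f.1.2 s))
    (fun r s hrs => by
      by_cases h : g2 c.1.1 r = 0
      · rw [h, zero_mul, zero_mul]
      · by_cases h' : g2' s c.1.2 = 0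
        · rw [h', mul_zero, zero_mul]
        · exact absurd (by rw [← h2 _ _ h, h2' _ _ h', c.2]) hrs)
  simp only [actA]
  rw [this, Matrix.mul_apply, Matrix.mul_apply, Finset.sum_mul_sum]
  exact Finset.sum_congr rfl fun r _ => Finset.sum_congr rfl fun s _ => by ring

theorem lin_lf {σ : Type} [Fintype σ] (A B : Matrix σ σ ℂ) (i : σ) : lin A (lf B i) = lf (B * A) i := by
  simp only [lf, lin, map_sum, map_mul, aeval_X, Matrix.mul_apply, Finset.mul_sum, Finset.sum_mul]
  rw [Finset.sum_comm]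
  refine Finset.sum_congr rfl fun k _ => Finset.sum_congr rfl fun j _ => ?_
  simp [mul_assoc]

end

end Pool.DM
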