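import Pool.Agent.Work.MP_c20ce7_dm8.A3

set_option autoImplicit false
set_option linter.unusedSectionVars false

/-! Transvections and diagonal matrices are implemented by operators on an equivariant module. -/

open MvPolynomial

noncomputable section

namespace Pool.DM

section

variable {ι : Type} [Fintype ι] [DecidableEq ι] {R : Type} [Ring R] [Nontrivial R] {e : ι → R}
variable {L : Type} [AddCommGroup L] [Module ℂ L]

/-- The pair `(g, g')`, `g g' = 1`, of matrices of degree `0` is implemented by an operator `E` on `L`. -/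
def Imp (W : WMod (Co e) L) (g g' : Matrix ι ι ℂ) : Prop :=
  Gr e g ∧ Gr e g' ∧ g * g' = 1 ∧ ∃ E : Module.End ℂ L, Function.Bijective E ∧
    (∀ i, E * W.x (X i) = W.x (lf (actA e g g') i) * E) ∧
    (∀ i, E * W.d (X i) = W.d (lf (actA e g'.transpose g.transpose) i) * E)

theorem Imp.mul {W : WMod (Co e) L} {g1 g1' g2 g2' : Matrix ι ι ℂ} (h1 : Imp W g1 g1')
    (h2 : Imp W g2 g2') : Imp W (g2 * g1) (g1' * g2') := by
  obtain ⟨a1, b1, c1, E1, hE1, x1, d1⟩ := h1
  obtain ⟨a2, b2, c2, E2, hE2, x2, d2⟩ := h2
  refine ⟨a2.mul a1, b1.mul b2, ?_, E1 * E2, hE1.comp hE2, ?_, ?_⟩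
  · calc g2 * g1 * (g1' * g2') = g2 * (g1 * g1') * g2' := by simp only [mul_assoc]
      _ = 1 := by rw [c1, mul_one, c2]
  · intro i
    rw [mul_assoc, x2, ← mul_assoc, conj_x W E1 _ x1, lin_lf, ← actA_mul a2 b2, mul_assoc]
  · intro i
    rw [mul_assoc, d2, ← mul_assoc, conj_d W E1 _ d1, lin_lf, ← actA_mul b2.transpose a2.transpose, mul_assoc,
      Matrix.transpose_mul, Matrix.transpose_mul]

theorem lf_one {σ : Type} [Fintype σ] [DecidableEq σ] (i : σ) : lf (1 : Matrix σ σ ℂ) i = X i := by
  rw [lf, Finset.sum_eq_single i]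
  · simp
  · intro j _ hj
    rw [Matrix.one_apply_ne (Ne.symm hj)]
    simp
  · simp

theorem actA_one : actA e (1 : Matrix ι ι ℂ) 1 = 1 := by
  ext c d
  rw [actA, Matrix.one_apply, Matrix.one_apply, Matrix.one_apply]
  by_cases h : c = d
  · subst h
    simp
  · rw [if_neg h]
    by_cases h1 : c.1.1 = d.1.1
    · rw [if_pos h1, if_neg (fun h2 => h (Subtype.ext (Prod.ext h1 h2.symm))), mul_zero]
    · rw [if_neg h1, zero_mul]

theorem Imp.one (W : WMod (Co e) L) : Imp W 1 1 := by
  refine ⟨Gr.one, Gr.one, one_mul 1, 1, Function.bijective_id, fun i => ?_, fun i => ?_⟩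
  · rw [actA_one, lf_one, one_mul, mul_one]
  · rw [Matrix.transpose_one, actA_one, lf_one, one_mul, mul_one]

theorem ne_add_one {a b : ι} (h : e a = e b) : e a ≠ e b + 1 := by
  rw [h]
  intro h0
  exact one_ne_zero (left_eq_add.1 h0)

theorem sum_transv {M : Type} [AddCommGroup M] [Module ℂ M] (F : ι → ι → M) (a b p q : ι) (t : ℂ)
    (hF : F b a = 0) :
    ∑ r, ∑ s, (Matrix.transvection a b t p r * Matrix.transvection a b (-t) s q) • F r s =
      F p q + t • ((if a = p then F b q else 0) - (if b = q then F p a else 0)) := by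
  have h1 : ∀ r s, (Matrix.transvection a b t p r * Matrix.transvection a b (-t) s q) • F r s =
      ((if p = r then (1 : ℂ) else 0) * (if s = q then 1 else 0)) • F r s +
      ((if r = b then (1 : ℂ) else 0) * (if s = q then 1 else 0)) • (if a = p then t • F r s else 0) -
      ((if p = r then (1 : ℂ) else 0) * (if s = a then 1 else 0)) • (if b = q then t • F r s else 0) := by
    intro r s
    have e1 : Matrix.transvection a b t p r = (if p = r then 1 else 0) + (if a = p then (if r = b then t else 0) else 0) := by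
      rw [Matrix.transvection, Matrix.add_apply, Matrix.one_apply, Matrix.single_apply, ← ite_and]
      congr 1
      exact if_congr (and_congr_right' eq_comm) rfl rfl
    have e2 : Matrix.transvection a b (-t) s q = (if s = q then 1 else 0) - (if b = q then (if s = a then t else 0) else 0) := by
      rw [Matrix.transvection, Matrix.add_apply, Matrix.one_apply, Matrix.single_apply, sub_eq_add_neg]
      congr 1
      by_cases h' : s = a
      · by_cases h : b = q <;> simp [h, h']
      · have h2 : ¬ a = s := fun x => h' x.symm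
        by_cases h : b = q <;> simp [h, h', h2]
    rw [e1, e2]
    by_cases h2 : r = b ∧ s = a
    · obtain ⟨rfl, rfl⟩ := h2
      rw [hF]
      simp
    · by_cases c1 : p = r <;> by_cases c2 : s = q <;> by_cases c3 : a = p <;> by_cases c4 : b = q <;>
        by_cases c5 : r = b <;> by_cases c6 : s = a <;> simp_all [add_smul, sub_smul, sub_eq_add_neg]
  simp only [h1, Finset.sum_add_distrib, Finset.sum_sub_distrib]
  have h2 : ∀ (u v : ι) (H : ι → ι → M), ∑ r, ∑ s, ((if r = u then (1 : ℂ) else 0) * (if s = v then 1 else 0)) • H r s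
      = H u v := by
    intro u v H
    rw [Finset.sum_eq_single u, Finset.sum_eq_single v]
    · simp
    · intro s _ hs
      simp [hs]
    · simp
    · intro r _ hr
      simp [hr]
    · simp
  have h3 : ∀ (u v : ι) (H : ι → ι → M), ∑ r, ∑ s, ((if u = r then (1 : ℂ) else 0) * (if s = v then 1 else 0)) • H r s
      = H u v := by
    intro u v H
    rw [← h2 u v H]
    simp only [eq_comm]
  rw [h3, h3, h2, smul_sub, add_sub_assoc]
  congr 2
  · split_ifs <;> simp
  · split_ifs <;> simp

theorem Imp.transvection {W : WMod (Co e) L} (hW : W.Equivariant) {a b : ι} (hne : a ≠ b)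
    (hab : e a = e b) (t : ℂ) :
    Imp W (Matrix.transvection a b t) (Matrix.transvection a b (-t)) := by
  have gr : ∀ s : ℂ, Gr e (Matrix.transvection a b s) := by
    intro s p q hpq
    by_contra h
    apply hpq
    rw [Matrix.transvection, Matrix.add_apply, Matrix.one_apply_ne (fun h' => h (by rw [h'])),
      Matrix.single_apply, if_neg, add_zero]
    rintro ⟨rfl, rfl⟩
    exact h hab
  refine ⟨gr t, gr (-t), ?_, expT (W.G a b) (hW.nil a b hne hab) t, expT_bij _ _ _, ?_, ?_⟩
  · rw [Matrix.transvection_mul_transvection_same _ _ hne, add_neg_cancel, Matrix.transvection_zero]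
  · intro c
    have z1 := W.xo_zero8 (a := b) (b := a) (ne_add_one hab.symm)
    have hG := W.G_xo8 hab c.1.1 c.1.2
    have hc : W.G a b * ((if a = c.1.1 then W.xo b c.1.2 else 0) - (if b = c.1.2 then W.xo c.1.1 a else 0)) =
        ((if a = c.1.1 then W.xo b c.1.2 else 0) - (if b = c.1.2 then W.xo c.1.1 a else 0)) * W.G a b := by
      rw [mul_sub, sub_mul]
      congr 1
      · by_cases h : a = c.1.1
        · rw [if_pos h, W.G_xo8 hab, if_neg hne, z1]
          simp
        · rw [if_neg h, mul_zero, zero_mul]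
      · by_cases h : b = c.1.2
        · rw [if_pos h, W.G_xo8 hab, if_neg (Ne.symm hne), z1]
          simp
        · rw [if_neg h, mul_zero, zero_mul]
    rw [W.x_act, sum_transv (fun r s => W.xo r s) a b c.1.1 c.1.2 t z1, ← W.xo_co8 c]
    exact expT_conj _ _ t _ _ hG hc
  · intro c
    have z1 := W.dO_zero8 (a := a) (b := b) (ne_add_one hab)
    have hG := W.G_dO8 hab c.1.1 c.1.2
    have hc : W.G a b * ((if a = c.1.2 then W.dO c.1.1 b else 0) - (if b = c.1.1 then W.dO a c.1.2 else 0)) =
        ((if a = c.1.2 then W.dO c.1.1 b else 0) - (if b = c.1.1 then W.dO a c.1.2 else 0)) * W.G a b := by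
      rw [mul_sub, sub_mul]
      congr 1
      · by_cases h : a = c.1.2
        · rw [if_pos h, W.G_dO8 hab, if_neg hne, z1]
          simp
        · rw [if_neg h, mul_zero, zero_mul]
      · by_cases h : b = c.1.1
        · rw [if_pos h, W.G_dO8 hab, if_neg (Ne.symm hne), z1]
          simp
        · rw [if_neg h, mul_zero, zero_mul]
    have hs := sum_transv (fun r s => W.dO s r) a b c.1.2 c.1.1 t z1
    rw [Finset.sum_comm] at hs
    rw [W.d_act, ← W.dO_co8 c]
    have hs' : (∑ r, ∑ s, ((Matrix.transvection a b (-t)).transpose c.1.1 r *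
        (Matrix.transvection a b t).transpose s c.1.2) • W.dO r s) = W.dO c.1.1 c.1.2 +
        t • ((if a = c.1.2 then W.dO c.1.1 b else 0) - (if b = c.1.1 then W.dO a c.1.2 else 0)) := by
      rw [← hs]
      refine Finset.sum_congr rfl fun r _ => Finset.sum_congr rfl fun s _ => ?_
      rw [Matrix.transpose_apply, Matrix.transpose_apply, mul_comm]
    rw [hs']
    exact expT_conj _ _ t _ _ hG hc

end

end Pool.DM
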