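import Pool.Agent.Work.MP_c20ce7_dm8.A4

set_option autoImplicit false
set_option linter.unusedSectionVars false

/-! Diagonal matrices, and all invertible matrices of degree `0`. -/

open MvPolynomial

noncomputable section

namespace Pool.DM

section torus

variable {L : Type} [AddCommGroup L] [Module ℂ L]

/-- A diagonalizable operator with integral eigenvalues integrates to an action of the torus. -/
theorem exists_tor (T : Module.End ℂ L)
    (hT : ∀ u : L, u ∈ ⨆ n : ℤ, Module.End.eigenspace T (n : ℂ)) (μ : ℂ) :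
    ∃ E : Module.End ℂ L, ∀ (n : ℤ), ∀ u ∈ Module.End.eigenspace T (n : ℂ), E u = μ ^ n • u := by
  classical
  have hi : iSupIndep fun n : ℤ => Module.End.eigenspace T (n : ℂ) :=
    (Module.End.eigenspaces_iSupIndep T).comp (f := fun n : ℤ => (n : ℂ)) Int.cast_injective
  have ht : (⨆ n : ℤ, Module.End.eigenspace T (n : ℂ)) = ⊤ := eq_top_iff.2 fun u _ => hT u
  have hI := DirectSum.isInternal_submodule_of_iSupIndep_of_iSup_eq_top hi ht
  let ψ := LinearEquiv.ofBijective
    (DirectSum.coeLinearMap fun n : ℤ => Module.End.eigenspace T (n : ℂ)) hI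
  let F := DirectSum.toModule ℂ ℤ L fun n : ℤ => μ ^ n • (Module.End.eigenspace T (n : ℂ)).subtype
  refine ⟨F ∘ₗ ψ.symm.toLinearMap, fun n u hu => ?_⟩
  have h1 : ψ (DirectSum.lof ℂ ℤ (fun n : ℤ => Module.End.eigenspace T (n : ℂ)) n ⟨u, hu⟩) = u := by
    simp only [ψ, LinearEquiv.ofBijective_apply]
    exact DirectSum.coeLinearMap_lof _ _ _
  have h2 : ψ.symm u = DirectSum.lof ℂ ℤ (fun n : ℤ => Module.End.eigenspace T (n : ℂ)) n ⟨u, hu⟩ := by
    rw [LinearEquiv.symm_apply_eq, h1]
  rw [LinearMap.comp_apply, LinearEquiv.coe_coe, h2, DirectSum.toModule_lof]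
  rfl

/-- The operator `μ ^ T`. -/
def tor (T : Module.End ℂ L) (hT : ∀ u : L, u ∈ ⨆ n : ℤ, Module.End.eigenspace T (n : ℂ)) (μ : ℂ) :
    Module.End ℂ L := (exists_tor T hT μ).choose

theorem tor_spec (T : Module.End ℂ L) (hT : ∀ u : L, u ∈ ⨆ n : ℤ, Module.End.eigenspace T (n : ℂ)) (μ : ℂ)
    (n : ℤ) (u : L) (hu : u ∈ Module.End.eigenspace T (n : ℂ)) : tor T hT μ u = μ ^ n • u :=
  (exists_tor T hT μ).choose_spec n u hu

theorem ext_eig (T : Module.End ℂ L) (hT : ∀ u : L, u ∈ ⨆ n : ℤ, Module.End.eigenspace T (n : ℂ))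
    (A B : Module.End ℂ L) (h : ∀ (n : ℤ), ∀ u ∈ Module.End.eigenspace T (n : ℂ), A u = B u) : A = B := by
  ext u
  have := hT u
  induction this using Submodule.iSup_induction' with
  | mem i x hx => exact h i x hx
  | zero => rw [map_zero, map_zero]
  | add x y _ _ hx hy => rw [map_add, map_add, hx, hy]

theorem tor_mul (T : Module.End ℂ L) (hT : ∀ u : L, u ∈ ⨆ n : ℤ, Module.End.eigenspace T (n : ℂ))
    {μ ν : ℂ} (h : μ * ν = 1) : tor T hT μ * tor T hT ν = 1 := by
  apply ext_eig T hT
  intro n u hu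
  rw [Module.End.mul_apply, tor_spec T hT ν n u hu, map_smul, tor_spec T hT μ n u hu, smul_smul,
    ← mul_zpow, mul_comm ν, h, one_zpow, one_smul, Module.End.one_apply]

theorem tor_bij (T : Module.End ℂ L) (hT : ∀ u : L, u ∈ ⨆ n : ℤ, Module.End.eigenspace T (n : ℂ))
    {μ : ℂ} (h : μ ≠ 0) : Function.Bijective (tor T hT μ) := by
  have h1 := tor_mul T hT (mul_inv_cancel₀ h)
  have h2 := tor_mul T hT (inv_mul_cancel₀ h)
  refine ⟨Function.LeftInverse.injective (g := tor T hT μ⁻¹) fun u => ?_,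
    Function.RightInverse.surjective (g := tor T hT μ⁻¹) fun u => ?_⟩
  · exact congrArg (fun f : Module.End ℂ L => f u) h2
  · exact congrArg (fun f : Module.End ℂ L => f u) h1

theorem tor_conj (T : Module.End ℂ L) (hT : ∀ u : L, u ∈ ⨆ n : ℤ, Module.End.eigenspace T (n : ℂ))
    {μ : ℂ} (hμ : μ ≠ 0) (Z : Module.End ℂ L) (w : ℤ) (h : T * Z = Z * T + (w : ℂ) • Z) :
    tor T hT μ * Z = (μ ^ w • Z) * tor T hT μ := by
  apply ext_eig T hT
  intro n u hu
  have h1 : Z u ∈ Module.End.eigenspace T ((n + w : ℤ) : ℂ) := by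
    rw [Module.End.mem_eigenspace_iff] at hu ⊢
    have := congrArg (fun f : Module.End ℂ L => f u) h
    simp only [Module.End.mul_apply, LinearMap.add_apply, LinearMap.smul_apply] at this
    rw [this, hu, map_smul, ← add_smul]
    push_cast
    rfl
  rw [Module.End.mul_apply, Module.End.mul_apply, tor_spec T hT μ n u hu, tor_spec T hT μ _ _ h1, map_smul,
    LinearMap.smul_apply, smul_smul, zpow_add₀ hμ]

end torus

section

variable {ι : Type} [Fintype ι] [DecidableEq ι] {R : Type} [Ring R] [Nontrivial R] {e : ι → R}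
variable {L : Type} [AddCommGroup L] [Module ℂ L]

theorem sum_diag {M : Type} [AddCommGroup M] [Module ℂ M] (F : ι → ι → M) (D D' : ι → ℂ) (p q : ι) :
    ∑ r, ∑ s, (Matrix.diagonal D p r * Matrix.diagonal D' s q) • F r s = (D p * D' q) • F p q := by
  rw [Finset.sum_eq_single p, Finset.sum_eq_single q]
  · rw [Matrix.diagonal_apply_eq, Matrix.diagonal_apply_eq]
  · intro s _ hs
    rw [Matrix.diagonal_apply_ne _ hs, mul_zero, zero_smul]
  · simp
  · intro r _ hr
    refine Finset.sum_eq_zero fun s _ => ?_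
    rw [Matrix.diagonal_apply_ne _ (Ne.symm hr), zero_mul, zero_smul]
  · simp

theorem gr_diag (D : ι → ℂ) : Gr e (Matrix.diagonal D) := by
  intro a b hab
  by_contra h
  exact hab (Matrix.diagonal_apply_ne _ fun h' => h (by rw [h']))

theorem ite_aux {M : Type} [AddCommGroup M] [Module ℂ M] (F : ι → ι → M) (a p q : ι) :
    (if a = p then F a q else 0) - (if a = q then F p a else 0) =
      (((if a = p then 1 else 0) - (if a = q then 1 else 0) : ℤ) : ℂ) • F p q := by
  by_cases h1 : a = p
  · subst h1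
    by_cases h2 : a = q
    · subst h2
      simp
    · simp [h2]
  · by_cases h2 : a = q
    · subst h2
      simp [h1]
    · simp [h1, h2]

theorem Imp.single {W : WMod (Co e) L} (hW : W.Equivariant) (a : ι) {μ : ℂ} (hμ : μ ≠ 0) :
    Imp W (Matrix.diagonal fun p => if p = a then μ else 1)
      (Matrix.diagonal fun p => if p = a then μ⁻¹ else 1) := by
  refine ⟨gr_diag _, gr_diag _, ?_, tor (W.G a a) (hW.diag a) μ, tor_bij _ _ hμ, ?_, ?_⟩
  · rw [Matrix.diagonal_mul_diagonal, ← Matrix.diagonal_one]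
    congr 1
    ext p
    by_cases h : p = a
    · simp [h, hμ]
    · simp [h]
  · intro c
    rw [W.x_act, sum_diag, ← W.xo_co8 c]
    set w : ℤ := (if a = c.1.1 then 1 else 0) - (if a = c.1.2 then 1 else 0) with hw
    have h1 : W.G a a * W.xo c.1.1 c.1.2 = W.xo c.1.1 c.1.2 * W.G a a + (w : ℂ) • W.xo c.1.1 c.1.2 := by
      rw [W.G_xo8 rfl, hw, ite_aux (fun r s => W.xo r s) a c.1.1 c.1.2]
    rw [tor_conj _ _ hμ _ w h1]
    congr 2
    rw [hw]
    by_cases h1 : a = c.1.1 <;> by_cases h2 : a = c.1.2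
    · simp [← h1, ← h2, hμ]
    · have : ¬ c.1.2 = a := fun h => h2 h.symm
      simp [← h1, h2, this]
    · have : ¬ c.1.1 = a := fun h => h1 h.symm
      simp [← h2, h1, this]
    · have h3 : ¬ c.1.2 = a := fun h => h2 h.symm
      have h4 : ¬ c.1.1 = a := fun h => h1 h.symm
      simp [h1, h2, h3, h4]
  · intro c
    rw [W.d_act, Matrix.diagonal_transpose, Matrix.diagonal_transpose, sum_diag, ← W.dO_co8 c]
    set w : ℤ := (if a = c.1.2 then 1 else 0) - (if a = c.1.1 then 1 else 0) with hw
    have h1 : W.G a a * W.dO c.1.1 c.1.2 = W.dO c.1.1 c.1.2 * W.G a a + (w : ℂ) • W.dO c.1.1 c.1.2 := by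
      rw [W.G_dO8 rfl, hw, ← neg_sub, ite_aux (fun r s => W.dO r s) a c.1.1 c.1.2, ← neg_smul]
      congr 2
      push_cast
      ring
    rw [tor_conj _ _ hμ _ w h1]
    congr 2
    rw [hw]
    by_cases h1 : a = c.1.1 <;> by_cases h2 : a = c.1.2
    · simp [← h1, ← h2, hμ]
    · have : ¬ c.1.2 = a := fun h => h2 h.symm
      simp [← h1, h2, this]
    · have : ¬ c.1.1 = a := fun h => h1 h.symm
      simp [← h2, h1, this]
    · have h3 : ¬ c.1.2 = a := fun h => h2 h.symm
      have h4 : ¬ c.1.1 = a := fun h => h1 h.symm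
      simp [h1, h2, h3, h4]

theorem Imp.diagonal {W : WMod (Co e) L} (hW : W.Equivariant) (D : ι → ℂ) (hD : ∀ a, D a ≠ 0) :
    Imp W (Matrix.diagonal D) (Matrix.diagonal fun a => (D a)⁻¹) := by
  classical
  have key : ∀ s : Finset ι, Imp W (Matrix.diagonal fun a => if a ∈ s then D a else 1)
      (Matrix.diagonal fun a => if a ∈ s then (D a)⁻¹ else 1) := by
    intro s
    induction s using Finset.induction_on with
    | empty => simpa using Imp.one W
    | insert a s ha ih =>
      have h := ih.mul (Imp.single hW a (hD a))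
      rw [Matrix.diagonal_mul_diagonal, Matrix.diagonal_mul_diagonal] at h
      have h1 : (fun i => (if i = a then D a else 1) * if i ∈ s then D i else 1) =
          fun i => if i ∈ insert a s then D i else 1 := by
        ext p
        by_cases hp : p = a
        · subst hp
          simp [ha]
        · simp [hp]
      have h2 : (fun i => (if i ∈ s then (D i)⁻¹ else 1) * if i = a then (D a)⁻¹ else 1) =
          fun i => if i ∈ insert a s then (D i)⁻¹ else 1 := by
        ext p
        by_cases hp : p = a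
        · subst hp
          simp [ha]
        · simp [hp]
      rw [h1, h2] at h
      exact h
  simpa using key Finset.univ

end

end Pool.DM
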