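import Pool.Agent.Work.MP_c20ce7_dm8.A5
import Pool.Agent.Work.MP_c20ce7_dm.Main

set_option autoImplicit false
set_option linter.unusedSectionVars false

/-! All invertible matrices of degree `0` are implemented; `Stmt_HST`, `Stmt_SCH`. -/

open MvPolynomial

noncomputable section

namespace Pool.DM

section

variable {ι : Type} [Fintype ι] [DecidableEq ι] {R : Type} [Ring R] [Nontrivial R] {e : ι → R}
variable {L : Type} [AddCommGroup L] [Module ℂ L]

open Classical in
/-- The matrix `M` on the vectors of degree `j`, extended by the identity. -/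
def emj (e : ι → R) (j : R) (M : Matrix {a // e a = j} {a // e a = j} ℂ) : Matrix ι ι ℂ :=
  Matrix.reindexAlgEquiv ℂ ℂ (Equiv.sumCompl fun a => e a = j) (Matrix.fromBlocks M 0 0 1)

open Classical in
theorem emj_mul (j : R) (A B : Matrix {a // e a = j} {a // e a = j} ℂ) :
    emj e j (A * B) = emj e j A * emj e j B := by
  rw [emj, emj, emj, ← map_mul, Matrix.fromBlocks_multiply]
  simp

/-- `g` is implemented. -/
def ImpE (W : WMod (Co e) L) (g : Matrix ι ι ℂ) : Prop := ∃ g', Imp W g g'

theorem ImpE.mul {W : WMod (Co e) L} {g1 g2 : Matrix ι ι ℂ} (h1 : ImpE W g1) (h2 : ImpE W g2) :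
    ImpE W (g2 * g1) := by
  obtain ⟨a, ha⟩ := h1
  obtain ⟨b, hb⟩ := h2
  exact ⟨_, ha.mul hb⟩

open Classical in
theorem impE_emj {W : WMod (Co e) L} (hW : W.Equivariant) (j : R)
    (M : Matrix {a // e a = j} {a // e a = j} ℂ) (hM : M.det ≠ 0) : ImpE W (emj e j M) := by
  refine Matrix.diagonal_transvection_induction_of_det_ne_zero (fun M => ImpE W (emj e j M)) M hM ?_ ?_ ?_
  · intro D hD
    have h : emj e j (Matrix.diagonal D) =
        Matrix.diagonal ((Sum.elim D fun _ => 1) ∘ (Equiv.sumCompl fun a => e a = j).symm) := by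
      rw [emj, ← Matrix.diagonal_one, Matrix.fromBlocks_diagonal, Matrix.reindexAlgEquiv_apply,
        Matrix.reindex_apply, Matrix.submatrix_diagonal_equiv]
    show ImpE W (emj e j (Matrix.diagonal D))
    rw [h]
    refine ⟨_, Imp.diagonal hW _ fun a => ?_⟩
    rw [Matrix.det_diagonal, Finset.prod_ne_zero_iff] at hD
    simp only [Function.comp_apply]
    rcases (Equiv.sumCompl fun a => e a = j).symm a with b | b
    · exact hD b (Finset.mem_univ _)
    · exact one_ne_zero
  · intro t
    show ImpE W (emj e j t.toMatrix)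
    have h : emj e j t.toMatrix = Matrix.transvection (t.i : ι) (t.j : ι) t.c := by
      rw [emj, ← Matrix.TransvectionStruct.toMatrix_sumInl, ← Matrix.TransvectionStruct.toMatrix_reindexEquiv]
      rfl
    rw [h]
    exact ⟨_, Imp.transvection hW (fun h => t.hij (Subtype.ext h)) (t.i.2.trans t.j.2.symm) t.c⟩
  · intro A B _ _ hA hB
    show ImpE W (emj e j (A * B))
    rw [emj_mul]
    exact ImpE.mul hB hA

open Classical in
theorem emj_sub (g : Matrix ι ι ℂ) (hg : Gr e g) (j : R) (a c : ι) :
    emj e j (g.submatrix Subtype.val Subtype.val) a c = if e a = j then g a c else (1 : Matrix ι ι ℂ) a c := by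
  rw [emj, Matrix.reindexAlgEquiv_apply, Matrix.reindex_apply, Matrix.submatrix_apply]
  by_cases ha : e a = j
  · rw [if_pos ha, Equiv.sumCompl_symm_apply_of_pos (p := fun a => e a = j) ha]
    by_cases hc : e c = j
    · rw [Equiv.sumCompl_symm_apply_of_pos (p := fun a => e a = j) hc, Matrix.fromBlocks_apply₁₁]
      rfl
    · rw [Equiv.sumCompl_symm_apply_of_neg (p := fun a => e a = j) hc, Matrix.fromBlocks_apply₁₂,
        hg.zero (fun h => hc (by rw [← h, ha]))]
      rfl
  · rw [if_neg ha, Equiv.sumCompl_symm_apply_of_neg (p := fun a => e a = j) ha]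
    by_cases hc : e c = j
    · rw [Equiv.sumCompl_symm_apply_of_pos (p := fun a => e a = j) hc, Matrix.fromBlocks_apply₂₁,
        Matrix.one_apply_ne (fun h => ha (by rw [h, hc]))]
      rfl
    · rw [Equiv.sumCompl_symm_apply_of_neg (p := fun a => e a = j) hc, Matrix.fromBlocks_apply₂₂,
        Matrix.one_apply, Matrix.one_apply]
      by_cases hac : a = c
      · subst hac
        simp
      · rw [if_neg hac, if_neg (fun h => hac (congrArg Subtype.val h))]

open Classical in
theorem det_sub_ne {g g' : Matrix ι ι ℂ} (hg : Gr e g) (h : g * g' = 1) (j : R) :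
    (g.submatrix Subtype.val Subtype.val : Matrix {a // e a = j} {a // e a = j} ℂ).det ≠ 0 := by
  have h1 : (g.submatrix Subtype.val Subtype.val : Matrix {a // e a = j} {a // e a = j} ℂ) *
      g'.submatrix Subtype.val Subtype.val = 1 := by
    ext a b
    have h2 := congrFun (congrFun h a.1) b.1
    rw [Matrix.mul_apply] at h2
    rw [Matrix.mul_apply, Matrix.one_apply]
    rw [Matrix.one_apply] at h2
    have h3 := Finset.sum_subtype (F := inferInstance) (Finset.univ.filter fun c => e c = j)
      (p := fun c => e c = j) (by simp) (fun c => g a.1 c * g' c b.1)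
    simp only [Matrix.submatrix_apply]
    rw [← h3, Finset.sum_filter]
    have h4 : ∀ c, (if e c = j then g a.1 c * g' c b.1 else 0) = g a.1 c * g' c b.1 := by
      intro c
      by_cases hc : e c = j
      · rw [if_pos hc]
      · rw [if_neg hc, hg.zero (fun h => hc (by rw [← h, a.2])), zero_mul]
    rw [Finset.sum_congr rfl fun c _ => h4 c, h2]
    by_cases hab : a = b
    · subst hab
      simp
    · rw [if_neg hab, if_neg (fun h => hab (Subtype.ext h))]
  exact (Matrix.isUnit_det_of_right_inverse h1).ne_zero

/-- Every invertible matrix of degree `0` is implemented. -/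
theorem imp_of_gr {W : WMod (Co e) L} (hW : W.Equivariant) {g g' : Matrix ι ι ℂ} (hg : Gr e g)
    (h : g * g' = 1) : Imp W g g' := by
  classical
  have key : ∀ s : Finset R, ImpE W (fun a b => if e a ∈ s then g a b else (1 : Matrix ι ι ℂ) a b) := by
    intro s
    induction s using Finset.induction_on with
    | empty =>
      simp only [Finset.notMem_empty, if_false]
      exact ⟨1, Imp.one W⟩
    | insert j s hj ih =>
      have h1 := ih.mul (impE_emj hW j _ (det_sub_ne hg h j))
      have h2 : (emj e j (g.submatrix Subtype.val Subtype.val) *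
          (show Matrix ι ι ℂ from fun a b => if e a ∈ s then g a b else (1 : Matrix ι ι ℂ) a b)) =
          (show Matrix ι ι ℂ from fun a b => if e a ∈ insert j s then g a b else (1 : Matrix ι ι ℂ) a b) := by
        ext a b
        rw [Matrix.mul_apply]
        simp only [emj_sub g hg j]
        by_cases ha : e a = j
        · simp only [if_pos ha]
          rw [if_pos (by rw [ha]; exact Finset.mem_insert_self _ _)]
          have h3 : ∀ c, g a c * (if e c ∈ s then g c b else (1 : Matrix ι ι ℂ) c b) =
              g a c * (1 : Matrix ι ι ℂ) c b := by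
            intro c
            by_cases hc : e c = j
            · rw [if_neg (by rw [hc]; exact hj)]
            · rw [hg.zero (fun h => hc (by rw [← h, ha])), zero_mul, zero_mul]
          rw [Finset.sum_congr rfl fun c _ => h3 c, ← Matrix.mul_apply, mul_one]
        · simp only [if_neg ha]
          rw [Finset.sum_eq_single a]
          · rw [Matrix.one_apply_eq, one_mul]
            by_cases hs : e a ∈ s
            · rw [if_pos hs, if_pos (Finset.mem_insert_of_mem hs)]
            · rw [if_neg hs, if_neg (fun h => (Finset.mem_insert.1 h).elim ha hs)]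
          · intro c _ hc
            rw [Matrix.one_apply_ne (Ne.symm hc), zero_mul]
          · simp
      rw [h2] at h1
      exact h1
  obtain ⟨g'', hg''⟩ := key (Finset.univ.image e)
  have h1 : (fun a b => if e a ∈ Finset.univ.image e then g a b else (1 : Matrix ι ι ℂ) a b) = g := by
    ext a b
    rw [if_pos (Finset.mem_image_of_mem e (Finset.mem_univ a))]
  rw [h1] at hg''
  have h2 : g'' = g' := by
    have h3 : g' * g = 1 := mul_eq_one_comm.1 h
    calc g'' = (g' * g) * g'' := by rw [h3, one_mul]
      _ = g' := by rw [mul_assoc, hg''.2.2.1, mul_one]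
  rw [h2] at hg''
  exact hg''

/-- The characteristic variety of an equivariant module is stable under `H`. -/
theorem WMod.InCh.act {W : WMod (Co e) L} (hW : W.Equivariant) {g h : Matrix ι ι ℂ} (hg : Gr e g)
    (hgh : g * h = 1) {x ξ x1 ξ1 : Co e → ℂ} (hx : W.InCh x ξ) (h1 : mat e x1 = g * mat e x * h)
    (h2 : (mat e ξ1).transpose = g * (mat e ξ).transpose * h) : W.InCh x1 ξ1 := by
  obtain ⟨a, b, -, E, hE, hx', hd'⟩ := imp_of_gr hW hg hgh
  have h3 := hx.conj E hE.1 _ _ hx' hd'
  have e1 : (actA e g h).mulVec x = x1 := mat_inj (by rw [mat_act a b, h1])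
  have e2 : (actA e h.transpose g.transpose).mulVec ξ = ξ1 := by
    apply mat_inj
    rw [mat_act b.transpose a.transpose, ← Matrix.transpose_transpose (mat e ξ1), h2, Matrix.transpose_mul,
      Matrix.transpose_mul, Matrix.transpose_transpose, mul_assoc]
  rw [e1, e2] at h3
  exact h3

/-- The ideal of the support of an equivariant module is stable under `H`. -/
theorem locNil_act {W : WMod (Co e) L} (hW : W.Equivariant) {g h : Matrix ι ι ℂ} (hg : Gr e g)
    (hgh : g * h = 1) {f f' : MvPolynomial (Co e) ℂ}
    (hf : ∀ x x1 : Co e → ℂ, mat e x1 = g * mat e x * h → eval x f' = eval x1 f)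
    (hn : LocNil (W.x f)) : LocNil (W.x f') := by
  obtain ⟨a, b, -, E, hE, hx', -⟩ := imp_of_gr hW hg hgh
  have h1 := LocNil.conj hn E hE.2 _ hx'
  have h2 : lin (actA e g h) f = f' := by
    apply MvPolynomial.funext
    intro x
    rw [eval_lin, hf x _ (mat_act a b x)]
  rw [h2] at h1
  exact h1

theorem ymat_eq' (ξ : Co e → ℂ) : ymat e ξ = (mat e ξ).transpose := by
  ext b a
  rw [Matrix.transpose_apply]
  by_cases h : e a = e b + 1
  · rw [ymat, dif_pos h, mat, dif_pos h]
  · rw [ymat, dif_neg h, mat_zero _ h]

end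

theorem stmt_HST : Stmt_HST := by
  intro ι _ _ e L _ _ W _ hW g h hgh _ hg _ x ξ x1 ξ1 hx h1 h2
  refine hx.act hW hg hgh h1 ?_
  rw [ymat_eq', ymat_eq'] at h2
  exact h2

theorem stmt_SCH : Stmt_SCH := by
  intro σ _ _ L _ _ W g hW hg x ξ hx
  haveI : Nontrivial L := by
    by_contra hn
    rw [not_nontrivial_iff_subsingleton] at hn
    exact hW.2.1 (Subsingleton.elim _ _)
  exact hx.eval_eq_zero hg

end Pool.DM
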